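import Pool.Agent.Q151.MM.Contr

/-!
# MP_3020f5_gt: the scaling quotient of the space of mm-spaces is contractible
-/

set_option autoImplicit false

namespace Pool.Agent.Results.MP_3020f5_gt.Contractible

open Pool.Agent.Q151.MM

/-- `Σ = 𝒳_* / ℝ₊` is contractible, both with the quotient of the box topology and with the
quotient of the concentration topology. -/
theorem result : ContractibleSpace (Sig dbox) ∧ ContractibleSpace (Sig dconc) :=
  ⟨gauge_box.contractible, gauge_conc.contractible⟩

end Pool.Agent.Results.MP_3020f5_gt.Contractible
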